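import Mathlib
import Pool.Agent.Helper602.MK.J5b
import Pool.Agent.H510R2.Div

/-! Fourth moments of sums over arbitrary sets of squares. -/

set_option autoImplicit false

namespace Pool.Agent.H806.MT
open Finset MeasureTheory Filter
open Pool.Agent.Helper602.MK (ee)
open Pool.Agent.Helper602.MK.N_J5b (ee_add ee_zero ee_conj norm_ee ee_int)

lemma ee_cont : Continuous ee := by
  unfold ee
  fun_prop

lemma int_ee (m n : ℤ) : ∫ x in (m : ℝ)..((m : ℝ) + 1), ee (n * x) = if n = 0 then 1 else 0 := by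
  split_ifs with h
  · subst h
    have : ∀ x : ℝ, ee (((0 : ℤ) : ℝ) * x) = 1 := by intro x; rw [Int.cast_zero, zero_mul, ee_zero]
    simp_rw [this]
    simp
  · have hc : (2 * Real.pi * Complex.I * n : ℂ) ≠ 0 := by
      have : (n : ℂ) ≠ 0 := by exact_mod_cast h
      have h2 := Complex.two_pi_I_ne_zero
      exact mul_ne_zero h2 this
    have h1 : ∀ x : ℝ, ee (n * x) = Complex.exp ((2 * Real.pi * Complex.I * n) * x) := by
      intro x
      unfold ee
      congr 1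
      push_cast
      ring
    simp_rw [h1]
    rw [integral_exp_mul_complex hc]
    have h2 : Complex.exp (2 * Real.pi * Complex.I * n * (((m : ℝ) + 1 : ℝ) : ℂ)) = ee ((n * (m + 1) : ℤ)) := by
      rw [← h1]; congr 1; push_cast; ring
    have h3 : Complex.exp (2 * Real.pi * Complex.I * n * ((m : ℝ) : ℂ)) = ee ((n * m : ℤ)) := by
      rw [← h1]; congr 1; push_cast; ring
    rw [h2, h3, ee_int, ee_int, sub_self, zero_div]

/-- the number of the quadruples -/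
def E4 (A : Finset ℕ) : ℕ :=
  (((A ×ˢ A) ×ˢ (A ×ˢ A)).filter (fun q => q.1.1 ^ 2 + q.1.2 ^ 2 = q.2.1 ^ 2 + q.2.2 ^ 2)).card

lemma fourth (A : Finset ℕ) (c : ℕ → ℂ) (hc : ∀ a, ‖c a‖ ≤ 1) (k : ℤ) (hk : k ≠ 0) (m : ℤ) :
    ∫ x in (m : ℝ)..((m : ℝ) + 1), ‖∑ a ∈ A, c a * ee (k * x * (a : ℝ) ^ 2)‖ ^ 4 ≤ E4 A := by
  classical
  set G : ℕ × ℕ → ℂ := fun p => c p.1 * c p.2 with hG
  set s : ℕ × ℕ → ℤ := fun p => (p.1 : ℤ) ^ 2 + (p.2 : ℤ) ^ 2 with hs
  have hGn : ∀ p, ‖G p‖ ≤ 1 := by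
    intro p; simp only [hG]; rw [norm_mul]
    exact mul_le_one₀ (hc _) (norm_nonneg _) (hc _)
  have h1 : ∀ x : ℝ, ((‖∑ a ∈ A, c a * ee (k * x * (a : ℝ) ^ 2)‖ ^ 4 : ℝ) : ℂ) =
      ∑ q ∈ (A ×ˢ A) ×ˢ (A ×ˢ A), (G q.1 * (starRingEnd ℂ) (G q.2)) * ee (((k * (s q.1 - s q.2) : ℤ) : ℝ) * x) := by
    intro x
    have h2 : (∑ a ∈ A, c a * ee (k * x * (a : ℝ) ^ 2)) * (∑ a ∈ A, c a * ee (k * x * (a : ℝ) ^ 2)) =
        ∑ p ∈ A ×ˢ A, G p * ee (((k * s p : ℤ) : ℝ) * x) := by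
      rw [sum_mul_sum, ← sum_product']
      apply sum_congr rfl; intro p _
      have : ee (((k * s p : ℤ) : ℝ) * x) = ee (k * x * (p.1 : ℝ) ^ 2) * ee (k * x * (p.2 : ℝ) ^ 2) := by
        rw [← ee_add]; congr 1; simp only [hs]; push_cast; ring
      rw [this]; simp only [hG]; ring
    have h3 : (‖∑ a ∈ A, c a * ee (k * x * (a : ℝ) ^ 2)‖ ^ 4 : ℝ) =
        ‖(∑ a ∈ A, c a * ee (k * x * (a : ℝ) ^ 2)) * (∑ a ∈ A, c a * ee (k * x * (a : ℝ) ^ 2))‖ ^ 2 := by
      rw [norm_mul]; ring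
    rw [h3, h2]
    push_cast
    rw [← Complex.mul_conj', map_sum, sum_mul_sum, ← sum_product']
    apply sum_congr rfl; intro q _
    rw [map_mul, ee_conj]
    have : ee (((k : ℤ) : ℝ) * (((s q.1 : ℤ) : ℝ) - ((s q.2 : ℤ) : ℝ)) * x) = ee (((k : ℤ) : ℝ) * ((s q.1 : ℤ) : ℝ) * x) * ee (-(((k : ℤ) : ℝ) * ((s q.2 : ℤ) : ℝ) * x)) := by
      rw [← ee_add]; congr 1; ring
    push_cast
    rw [this]; ring
  have h4 : ((∫ x in (m : ℝ)..((m : ℝ) + 1), ‖∑ a ∈ A, c a * ee (k * x * (a : ℝ) ^ 2)‖ ^ 4 : ℝ) : ℂ) =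
      ∑ q ∈ (A ×ˢ A) ×ˢ (A ×ˢ A), (G q.1 * (starRingEnd ℂ) (G q.2)) * (if k * (s q.1 - s q.2) = 0 then 1 else 0) := by
    rw [← intervalIntegral.integral_ofReal]
    simp_rw [h1]
    rw [intervalIntegral.integral_finsetSum]
    · apply sum_congr rfl; intro q _
      rw [intervalIntegral.integral_const_mul, int_ee]
    · intro q _
      apply Continuous.intervalIntegrable
      exact continuous_const.mul (ee_cont.comp (continuous_const.mul continuous_id))
  have h5 : ∫ x in (m : ℝ)..((m : ℝ) + 1), ‖∑ a ∈ A, c a * ee (k * x * (a : ℝ) ^ 2)‖ ^ 4 ≤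
      ‖((∫ x in (m : ℝ)..((m : ℝ) + 1), ‖∑ a ∈ A, c a * ee (k * x * (a : ℝ) ^ 2)‖ ^ 4 : ℝ) : ℂ)‖ := by
    rw [Complex.norm_real]; exact le_abs_self _
  refine h5.trans ?_
  rw [h4]
  refine (norm_sum_le _ _).trans ?_
  unfold E4
  rw [card_filter]
  push_cast
  apply sum_le_sum; intro q _
  rw [norm_mul, norm_mul, RCLike.norm_conj]
  have h6 : ‖G q.1‖ * ‖G q.2‖ ≤ 1 := mul_le_one₀ (hGn _) (norm_nonneg _) (hGn _)
  by_cases h : q.1.1 ^ 2 + q.1.2 ^ 2 = q.2.1 ^ 2 + q.2.2 ^ 2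
  · rw [if_pos h]
    split_ifs
    · rw [norm_one, mul_one]; exact h6
    · rw [norm_zero, mul_zero]; exact zero_le_one
  · have h7 : ¬ (k * (s q.1 - s q.2) = 0) := by
      intro h8
      rcases mul_eq_zero.1 h8 with h9 | h9
      · exact hk h9
      · apply h
        simp only [hs] at h9
        have : (q.1.1 : ℤ) ^ 2 + (q.1.2 : ℤ) ^ 2 = (q.2.1 : ℤ) ^ 2 + (q.2.2 : ℤ) ^ 2 := by linarith
        exact_mod_cast this
    rw [if_neg h, if_neg h7, norm_zero, mul_zero]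

lemma E4_le (ε : ℝ) (hε : 0 < ε) : ∃ C : ℝ, 0 < C ∧ ∀ (X : ℕ) (A : Finset ℕ), 1 ≤ X → A ⊆ Icc 1 X →
    (E4 A : ℝ) ≤ C * (X : ℝ) ^ (2 * ε) * (A.card : ℝ) ^ 2 := by
  classical
  obtain ⟨C, hC, hdiv⟩ := Pool.Agent.H510R2.divisor_bound ε hε
  refine ⟨C + 1, by positivity, fun X A hX hA => ?_⟩
  have hX1 : (1 : ℝ) ≤ X := by exact_mod_cast hX
  have hXp : (1 : ℝ) ≤ (X : ℝ) ^ (2 * ε) := Real.one_le_rpow hX1 (by positivity)
  -- fibres over (b, d)
  set Q := ((A ×ˢ A) ×ˢ (A ×ˢ A)).filter (fun q => q.1.1 ^ 2 + q.1.2 ^ 2 = q.2.1 ^ 2 + q.2.2 ^ 2) with hQ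
  have hmap : (Q : Set ((ℕ × ℕ) × (ℕ × ℕ))).MapsTo (fun q => (q.1.2, q.2.2)) ((A ×ˢ A : Finset (ℕ × ℕ)) : Set (ℕ × ℕ)) := by
    intro q hq
    rw [mem_coe, hQ, mem_filter, mem_product, mem_product, mem_product] at hq
    rw [mem_coe, mem_product]
    exact ⟨hq.1.1.2, hq.1.2.2⟩
  have h1 : (Q.card : ℝ) = ∑ r ∈ A ×ˢ A, ((Q.filter (fun q => (q.1.2, q.2.2) = r)).card : ℝ) := by
    rw [card_eq_sum_card_fiberwise hmap]; push_cast; rfl
  have h2 : ∀ r ∈ A ×ˢ A, ((Q.filter (fun q => (q.1.2, q.2.2) = r)).card : ℝ) ≤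
      (if r.1 = r.2 then (A.card : ℝ) else 0) + C * (X : ℝ) ^ (2 * ε) := by
    intro r hr
    rw [mem_product] at hr
    have hr1 := mem_Icc.1 (hA hr.1)
    have hr2 := mem_Icc.1 (hA hr.2)
    by_cases h : r.1 = r.2
    · rw [if_pos h]
      have h3 : (Q.filter (fun q => (q.1.2, q.2.2) = r)).card ≤ A.card := by
        apply card_le_card_of_injOn (fun q => q.1.1)
        · intro q hq
          rw [mem_coe, mem_filter, hQ, mem_filter, mem_product, mem_product] at hq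
          exact hq.1.1.1.1
        · intro q hq q' hq' he
          rw [mem_coe, mem_filter, hQ, mem_filter] at hq hq'
          obtain ⟨⟨_, h4⟩, h5⟩ := hq
          obtain ⟨⟨_, h4'⟩, h5'⟩ := hq'
          have e1 : q.1.2 = r.1 := (Prod.ext_iff.1 h5).1
          have e2 : q.2.2 = r.2 := (Prod.ext_iff.1 h5).2
          have e1' : q'.1.2 = r.1 := (Prod.ext_iff.1 h5').1
          have e2' : q'.2.2 = r.2 := (Prod.ext_iff.1 h5').2
          have he' : q.1.1 = q'.1.1 := he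
          have e3 : q.2.1 = q.1.1 := by
            rw [e1, e2, h] at h4
            exact (Nat.pow_left_injective (by norm_num : 2 ≠ 0) (Nat.add_right_cancel h4)).symm
          have e3' : q'.2.1 = q'.1.1 := by
            rw [e1', e2', h] at h4'
            exact (Nat.pow_left_injective (by norm_num : 2 ≠ 0) (Nat.add_right_cancel h4')).symm
          apply Prod.ext
          · exact Prod.ext he' (e1.trans e1'.symm)
          · exact Prod.ext (by rw [e3, e3', he']) (e2.trans e2'.symm)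
      have h4 : ((Q.filter (fun q => (q.1.2, q.2.2) = r)).card : ℝ) ≤ A.card := by exact_mod_cast h3
      have : 0 ≤ C * (X : ℝ) ^ (2 * ε) := by positivity
      linarith
    · rw [if_neg h, zero_add]
      set M : ℤ := (r.2 : ℤ) ^ 2 - (r.1 : ℤ) ^ 2 with hM
      have hM0 : M ≠ 0 := by
        intro h3
        apply h
        have h4 : (r.2 : ℤ) ^ 2 = (r.1 : ℤ) ^ 2 := by linarith
        have h5 : r.2 ^ 2 = r.1 ^ 2 := by exact_mod_cast h4
        exact (Nat.pow_left_injective (by norm_num : 2 ≠ 0) h5).symm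
      have hMX : M.natAbs ≤ X ^ 2 := by
        have h3 : |M| ≤ (X : ℤ) ^ 2 := by
          have a1 : (r.1 : ℤ) ≤ X := by exact_mod_cast hr1.2
          have a2 : (r.2 : ℤ) ≤ X := by exact_mod_cast hr2.2
          have a3 : (0 : ℤ) ≤ r.1 := Int.natCast_nonneg _
          have a4 : (0 : ℤ) ≤ r.2 := Int.natCast_nonneg _
          rw [abs_le, hM]
          constructor <;> nlinarith
        have h4 : (M.natAbs : ℤ) ≤ ((X ^ 2 : ℕ) : ℤ) := by rw [Int.natCast_natAbs]; push_cast; exact h3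
        exact_mod_cast h4
      have h3 : (Q.filter (fun q => (q.1.2, q.2.2) = r)).card ≤ M.natAbs.divisors.card := by
        have hkey : ∀ q ∈ Q.filter (fun q => (q.1.2, q.2.2) = r), ((q.1.1 : ℤ) - q.2.1) * ((q.1.1 : ℤ) + q.2.1) = M ∧ 1 ≤ q.1.1 ∧
            q.1.2 = r.1 ∧ q.2.2 = r.2 := by
          intro q hq
          rw [mem_filter, hQ, mem_filter, mem_product, mem_product] at hq
          obtain ⟨⟨⟨⟨h6, _⟩, _⟩, h4⟩, h5⟩ := hq
          have e1 : q.1.2 = r.1 := (Prod.ext_iff.1 h5).1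
          have e2 : q.2.2 = r.2 := (Prod.ext_iff.1 h5).2
          rw [e1, e2] at h4
          have h4' : (q.1.1 : ℤ) ^ 2 + (r.1 : ℤ) ^ 2 = (q.2.1 : ℤ) ^ 2 + (r.2 : ℤ) ^ 2 := by exact_mod_cast h4
          refine ⟨by rw [hM]; linarith, (mem_Icc.1 (hA h6)).1, e1, e2⟩
        apply card_le_card_of_injOn (fun q => q.1.1 + q.2.1)
        · intro q hq
          rw [mem_coe] at hq
          obtain ⟨h4, h5, _⟩ := hkey q hq
          rw [mem_coe, Nat.mem_divisors]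
          refine ⟨?_, Int.natAbs_ne_zero.2 hM0⟩
          have h6 : (((q.1.1 + q.2.1 : ℕ) : ℤ)) ∣ M := by
            rw [← h4]; push_cast; exact Dvd.intro_left _ rfl
          exact Int.natCast_dvd.1 h6
        · intro q hq q' hq' he
          rw [mem_coe] at hq hq'
          obtain ⟨h4, h5, e1, e2⟩ := hkey q hq
          obtain ⟨h4', h5', e1', e2'⟩ := hkey q' hq'
          have he' : (q.1.1 : ℤ) + q.2.1 = (q'.1.1 : ℤ) + q'.2.1 := by exact_mod_cast he
          have hpos : (0 : ℤ) < (q.1.1 : ℤ) + q.2.1 := by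
            have : (1 : ℤ) ≤ q.1.1 := by exact_mod_cast h5
            have := Int.natCast_nonneg q.2.1
            linarith
          have h6 : ((q.1.1 : ℤ) - q.2.1) = ((q'.1.1 : ℤ) - q'.2.1) := by
            have : ((q.1.1 : ℤ) - q.2.1) * ((q.1.1 : ℤ) + q.2.1) = ((q'.1.1 : ℤ) - q'.2.1) * ((q.1.1 : ℤ) + q.2.1) := by
              rw [h4, he', h4']
            exact mul_right_cancel₀ hpos.ne' this
          apply Prod.ext
          · exact Prod.ext (by omega) (e1.trans e1'.symm)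
          · exact Prod.ext (by omega) (e2.trans e2'.symm)
      have h4 : ((Q.filter (fun q => (q.1.2, q.2.2) = r)).card : ℝ) ≤ (M.natAbs.divisors.card : ℝ) := by exact_mod_cast h3
      refine h4.trans ((hdiv _ (Int.natAbs_pos.2 hM0)).trans ?_)
      apply mul_le_mul_of_nonneg_left _ hC.le
      calc ((M.natAbs : ℕ) : ℝ) ^ ε ≤ ((X : ℝ) ^ 2) ^ ε := by
            apply Real.rpow_le_rpow (by positivity) _ hε.le
            exact_mod_cast hMX
        _ = (X : ℝ) ^ (2 * ε) := by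
            rw [← Real.rpow_natCast, ← Real.rpow_mul (by positivity)]; norm_num
  have h3 : (E4 A : ℝ) = Q.card := rfl
  rw [h3, h1]
  calc ∑ r ∈ A ×ˢ A, ((Q.filter (fun q => (q.1.2, q.2.2) = r)).card : ℝ)
      ≤ ∑ r ∈ A ×ˢ A, ((if r.1 = r.2 then (A.card : ℝ) else 0) + C * (X : ℝ) ^ (2 * ε)) := sum_le_sum h2
    _ = (A.card : ℝ) ^ 2 + (A.card : ℝ) ^ 2 * (C * (X : ℝ) ^ (2 * ε)) := by
        rw [sum_add_distrib, sum_const, card_product, nsmul_eq_mul, sum_product]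
        congr 1
        · have : ∀ x ∈ A, ∑ y ∈ A, (if (x, y).1 = (x, y).2 then (A.card : ℝ) else 0) = A.card := by
            intro x hx
            rw [sum_ite_eq, if_pos hx]
          rw [sum_congr rfl this, sum_const, nsmul_eq_mul]; ring
        · push_cast; ring
    _ ≤ _ := by
        have h4 : (0 : ℝ) ≤ (A.card : ℝ) ^ 2 := by positivity
        have h5 : (A.card : ℝ) ^ 2 ≤ (A.card : ℝ) ^ 2 * (X : ℝ) ^ (2 * ε) := le_mul_of_one_le_right h4 hXp
        nlinarith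

end Pool.Agent.H806.MT
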