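import Mathlib
import Pool.Agent.H806.MT.A

/-! Borel–Cantelli. -/

set_option autoImplicit false

namespace Pool.Agent.H806.MT
open Finset MeasureTheory Filter
open Pool.Agent.Helper602.MK (ee)
open Pool.Agent.Helper602.MK.N_J5b (ee_add ee_zero ee_conj norm_ee ee_int)

/-- the bound for the frequencies -/
noncomputable def Kj (j : ℕ) : ℝ := (2 : ℝ) ^ ((3 / 20 : ℝ) * j)

/-- the bound for the sums -/
noncomputable def Tj (j : ℕ) : ℝ := (2 : ℝ) ^ ((3 / 5 : ℝ) * j)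

/-- the sums -/
noncomputable def Sm (A : ℕ → Finset ℕ) (c : ℕ → ℤ → ℕ → ℂ) (j : ℕ) (k l : ℤ) (x : ℝ) : ℂ :=
  ∑ a ∈ A j, c j l a * ee (k * x * (a : ℝ) ^ 2)

lemma Sm_cont (A : ℕ → Finset ℕ) (c : ℕ → ℤ → ℕ → ℂ) (j : ℕ) (k l : ℤ) : Continuous (Sm A c j k l) := by
  unfold Sm
  apply continuous_finset_sum
  intro a _
  exact continuous_const.mul (ee_cont.comp (by fun_prop))

/-- the exceptional set at the scale `j` -/
def BadS (A : ℕ → Finset ℕ) (c : ℕ → ℤ → ℕ → ℂ) (j : ℕ) : Set ℝ :=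
  {x | ∃ k l : ℤ, k ≠ 0 ∧ |(k : ℝ)| ≤ Kj j ∧ |(l : ℝ)| ≤ Kj j ∧ Tj j < ‖Sm A c j k l x‖}

lemma bad_measure (A : ℕ → Finset ℕ) (hA : ∀ j, A j ⊆ Icc 1 (2 ^ (j + 1))) (c : ℕ → ℤ → ℕ → ℂ) (hc : ∀ j l a, ‖c j l a‖ ≤ 1) :
    ∃ C : ℝ, 0 < C ∧ ∀ (j : ℕ) (m : ℤ), (volume.restrict (Set.Ioc (m : ℝ) (m + 1))) (BadS A c j) ≤
      ENNReal.ofReal (C * ((2 : ℝ) ^ (-(1 / 20) : ℝ)) ^ j) := by
  classical
  obtain ⟨C, hC, hE⟩ := E4_le (1 / 80) (by norm_num)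
  refine ⟨9 * (C * 8), by positivity, fun j m => ?_⟩
  set μ := volume.restrict (Set.Ioc (m : ℝ) (m + 1)) with hμ
  have hT0 : 0 < Tj j := by unfold Tj; positivity
  have hK0 : 0 < Kj j := by unfold Kj; positivity
  have hK1 : 1 ≤ Kj j := by unfold Kj; exact Real.one_le_rpow (by norm_num) (by positivity)
  set F : Finset ℤ := Icc (-⌊Kj j⌋) ⌊Kj j⌋ with hF
  have hFmem : ∀ k : ℤ, |(k : ℝ)| ≤ Kj j → k ∈ F := by
    intro k hk
    rw [abs_le] at hk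
    rw [hF, Finset.mem_Icc]
    constructor
    · have : -k ≤ ⌊Kj j⌋ := Int.le_floor.2 (by push_cast; linarith [hk.1])
      linarith
    · exact Int.le_floor.2 hk.2
  have hFc : (F.card : ℝ) ≤ 3 * Kj j := by
    rw [hF, Int.card_Icc]
    have h1 : (⌊Kj j⌋ : ℝ) ≤ Kj j := Int.floor_le _
    have h2 : (0 : ℤ) ≤ ⌊Kj j⌋ := Int.floor_nonneg.2 hK0.le
    have h3 : (((⌊Kj j⌋ + 1 - -⌊Kj j⌋).toNat : ℕ) : ℝ) = 2 * (⌊Kj j⌋ : ℝ) + 1 := by
      have : (((⌊Kj j⌋ + 1 - -⌊Kj j⌋).toNat : ℕ) : ℤ) = 2 * ⌊Kj j⌋ + 1 := by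
        rw [Int.toNat_of_nonneg (by linarith)]; ring
      exact_mod_cast this
    rw [h3]; linarith
  set V : ℝ := C * ((2 : ℝ) ^ (j + 1)) ^ (1 / 40 : ℝ) * ((2 : ℝ) ^ (j + 1)) ^ 2 / Tj j ^ 4 with hV
  have hV0 : 0 ≤ V := by rw [hV]; positivity
  have hone : ∀ k l : ℤ, k ≠ 0 → μ {x | Tj j < ‖Sm A c j k l x‖} ≤ ENNReal.ofReal V := by
    intro k l hk
    have h1 : ∫ x in (m : ℝ)..((m : ℝ) + 1), ‖Sm A c j k l x‖ ^ 4 ≤ E4 (A j) := fourth (A j) (c j l) (hc j l) k hk m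
    have h2 : (E4 (A j) : ℝ) ≤ C * ((2 : ℝ) ^ (j + 1)) ^ (1 / 40 : ℝ) * ((2 : ℝ) ^ (j + 1)) ^ 2 := by
      have h3 := hE (2 ^ (j + 1)) (A j) Nat.one_le_two_pow (hA j)
      push_cast at h3
      have h4 : ((A j).card : ℝ) ≤ (2 : ℝ) ^ (j + 1) := by
        have := card_le_card (hA j)
        rw [Nat.card_Icc, Nat.add_sub_cancel] at this
        exact_mod_cast this
      calc (E4 (A j) : ℝ) ≤ C * ((2 : ℝ) ^ (j + 1)) ^ (2 * (1 / 80) : ℝ) * ((A j).card : ℝ) ^ 2 := h3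
        _ ≤ C * ((2 : ℝ) ^ (j + 1)) ^ (2 * (1 / 80) : ℝ) * ((2 : ℝ) ^ (j + 1)) ^ 2 := by
            apply mul_le_mul_of_nonneg_left _ (by positivity)
            exact pow_le_pow_left₀ (Nat.cast_nonneg _) h4 2
        _ = _ := by norm_num
    have hcont : Continuous (fun x => ‖Sm A c j k l x‖ ^ 4) := ((Sm_cont A c j k l).norm).pow 4
    have hint : Integrable (fun x => ‖Sm A c j k l x‖ ^ 4) μ := by
      have := hcont.intervalIntegrable (μ := volume) (m : ℝ) ((m : ℝ) + 1)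
      rwa [intervalIntegrable_iff_integrableOn_Ioc_of_le (by linarith)] at this
    have h5 : ∫ x, ‖Sm A c j k l x‖ ^ 4 ∂μ ≤ C * ((2 : ℝ) ^ (j + 1)) ^ (1 / 40 : ℝ) * ((2 : ℝ) ^ (j + 1)) ^ 2 := by
      have : ∫ x, ‖Sm A c j k l x‖ ^ 4 ∂μ = ∫ x in (m : ℝ)..((m : ℝ) + 1), ‖Sm A c j k l x‖ ^ 4 := by
        rw [intervalIntegral.integral_of_le (by linarith)]
      rw [this]; exact h1.trans h2
    have h6 := mul_meas_ge_le_integral_of_nonneg (μ := μ) (f := fun x => ‖Sm A c j k l x‖ ^ 4)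
      (Filter.Eventually.of_forall fun x => by positivity) hint (Tj j ^ 4)
    have h7 : {x | Tj j < ‖Sm A c j k l x‖} ⊆ {x | Tj j ^ 4 ≤ ‖Sm A c j k l x‖ ^ 4} := by
      intro x hx
      exact pow_le_pow_left₀ hT0.le (le_of_lt hx) 4
    have h8 : μ.real {x | Tj j ^ 4 ≤ ‖Sm A c j k l x‖ ^ 4} ≤ V := by
      rw [hV, le_div_iff₀ (by positivity), mul_comm]
      exact h6.trans h5
    have hfin : μ {x | Tj j ^ 4 ≤ ‖Sm A c j k l x‖ ^ 4} ≠ ⊤ := measure_ne_top _ _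
    calc μ {x | Tj j < ‖Sm A c j k l x‖} ≤ μ {x | Tj j ^ 4 ≤ ‖Sm A c j k l x‖ ^ 4} := measure_mono h7
      _ = ENNReal.ofReal (μ.real {x | Tj j ^ 4 ≤ ‖Sm A c j k l x‖ ^ 4}) := (ENNReal.ofReal_toReal hfin).symm
      _ ≤ _ := ENNReal.ofReal_le_ofReal h8
  have hsub : BadS A c j ⊆ ⋃ r ∈ (F ×ˢ F).filter (fun r => r.1 ≠ 0), {x | Tj j < ‖Sm A c j r.1 r.2 x‖} := by
    rintro x ⟨k, l, hk, hk1, hl1, hx⟩
    rw [Set.mem_iUnion₂]
    exact ⟨(k, l), by rw [mem_filter, mem_product]; exact ⟨⟨hFmem k hk1, hFmem l hl1⟩, hk⟩, hx⟩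
  calc μ (BadS A c j) ≤ μ (⋃ r ∈ (F ×ˢ F).filter (fun r => r.1 ≠ 0), {x | Tj j < ‖Sm A c j r.1 r.2 x‖}) := measure_mono hsub
    _ ≤ ∑ r ∈ (F ×ˢ F).filter (fun r => r.1 ≠ 0), μ {x | Tj j < ‖Sm A c j r.1 r.2 x‖} := measure_biUnion_finset_le _ _
    _ ≤ ∑ r ∈ (F ×ˢ F).filter (fun r => r.1 ≠ 0), ENNReal.ofReal V := sum_le_sum fun r hr => hone r.1 r.2 (mem_filter.1 hr).2
    _ = ((F ×ˢ F).filter (fun r => r.1 ≠ 0)).card * ENNReal.ofReal V := by rw [sum_const, nsmul_eq_mul]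
    _ = ENNReal.ofReal (((F ×ˢ F).filter (fun r => r.1 ≠ 0)).card * V) := by
        rw [ENNReal.ofReal_mul (Nat.cast_nonneg _), ENNReal.ofReal_natCast]
    _ ≤ _ := by
        apply ENNReal.ofReal_le_ofReal
        have h1 : (((F ×ˢ F).filter (fun r => r.1 ≠ 0)).card : ℝ) ≤ 9 * Kj j ^ 2 := by
          have h2 : (((F ×ˢ F).filter (fun r => r.1 ≠ 0)).card : ℝ) ≤ (F.card : ℝ) * F.card := by
            have := card_filter_le (F ×ˢ F) (fun r => r.1 ≠ 0)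
            rw [card_product] at this
            exact_mod_cast this
          have h3 : (F.card : ℝ) * F.card ≤ (3 * Kj j) * (3 * Kj j) := mul_le_mul hFc hFc (Nat.cast_nonneg _) (by positivity)
          calc _ ≤ (3 * Kj j) * (3 * Kj j) := h2.trans h3
            _ = _ := by ring
        refine (mul_le_mul_of_nonneg_right h1 hV0).trans ?_
        have h2 : (0 : ℝ) < 2 := by norm_num
        have e1 : Kj j ^ 2 = (2 : ℝ) ^ ((3 / 10 : ℝ) * j) := by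
          unfold Kj; rw [← Real.rpow_natCast, ← Real.rpow_mul h2.le]; congr 1; push_cast; ring
        have e2 : Tj j ^ 4 = (2 : ℝ) ^ ((12 / 5 : ℝ) * j) := by
          unfold Tj; rw [← Real.rpow_natCast, ← Real.rpow_mul h2.le]; congr 1; push_cast; ring
        have e3 : ((2 : ℝ) ^ (j + 1)) ^ (1 / 40 : ℝ) = (2 : ℝ) ^ ((1 / 40 : ℝ) * (j + 1)) := by
          rw [← Real.rpow_natCast, ← Real.rpow_mul h2.le]; congr 1; push_cast; ring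
        have e4 : ((2 : ℝ) ^ (j + 1)) ^ 2 = (2 : ℝ) ^ ((2 : ℝ) * (j + 1)) := by
          rw [← Real.rpow_natCast, ← Real.rpow_natCast, ← Real.rpow_mul h2.le]; congr 1; push_cast; ring
        have e5 : ((2 : ℝ) ^ (-(1 / 20) : ℝ)) ^ j = (2 : ℝ) ^ (-(1 / 20 : ℝ) * j) := by
          rw [← Real.rpow_natCast, ← Real.rpow_mul h2.le]
        have e6 : (8 : ℝ) = (2 : ℝ) ^ (3 : ℝ) := by norm_num
        rw [hV, e1, e2, e3, e4, e5, e6]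
        have e7 : 9 * (2 : ℝ) ^ ((3 / 10 : ℝ) * j) * (C * (2 : ℝ) ^ ((1 / 40 : ℝ) * (j + 1)) * (2 : ℝ) ^ ((2 : ℝ) * (j + 1)) / (2 : ℝ) ^ ((12 / 5 : ℝ) * j)) =
            9 * C * (2 : ℝ) ^ ((3 / 10 : ℝ) * j + (1 / 40 : ℝ) * (j + 1) + (2 : ℝ) * (j + 1) - (12 / 5 : ℝ) * j) := by
          rw [Real.rpow_sub h2, Real.rpow_add h2, Real.rpow_add h2]; ring
        have e8 : 9 * (C * (2 : ℝ) ^ (3 : ℝ)) * (2 : ℝ) ^ (-(1 / 20 : ℝ) * j) = 9 * C * (2 : ℝ) ^ ((3 : ℝ) + -(1 / 20 : ℝ) * j) := by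
          rw [Real.rpow_add h2]; ring
        rw [e7, e8]
        apply mul_le_mul_of_nonneg_left _ (by positivity)
        apply Real.rpow_le_rpow_of_exponent_le (by norm_num)
        have hj : (0 : ℝ) ≤ j := Nat.cast_nonneg _
        nlinarith

/-- almost all `x` are in only finitely many of the exceptional sets -/
theorem metric (A : ℕ → Finset ℕ) (hA : ∀ j, A j ⊆ Icc 1 (2 ^ (j + 1))) (c : ℕ → ℤ → ℕ → ℂ) (hc : ∀ j l a, ‖c j l a‖ ≤ 1) :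
    ∀ᵐ x : ℝ, ∀ᶠ j in atTop, x ∉ BadS A c j := by
  obtain ⟨C, hC, hbad⟩ := bad_measure A hA c hc
  have h1 : ∀ m : ℤ, ∀ᵐ x ∂(volume.restrict (Set.Ioc (m : ℝ) (m + 1))), ∀ᶠ j in atTop, x ∉ BadS A c j := by
    intro m
    apply ae_eventually_notMem
    have hr0 : (0 : ℝ) ≤ (2 : ℝ) ^ (-(1 / 20) : ℝ) := by positivity
    have hr1 : (2 : ℝ) ^ (-(1 / 20) : ℝ) < 1 := Real.rpow_lt_one_of_one_lt_of_neg (by norm_num) (by norm_num)
    have hs : Summable (fun j : ℕ => C * ((2 : ℝ) ^ (-(1 / 20) : ℝ)) ^ j) := (summable_geometric_of_lt_one hr0 hr1).mul_left C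
    have h2 : ∑' j, (volume.restrict (Set.Ioc (m : ℝ) (m + 1))) (BadS A c j) ≤ ∑' j : ℕ, ENNReal.ofReal (C * ((2 : ℝ) ^ (-(1 / 20) : ℝ)) ^ j) :=
      ENNReal.tsum_le_tsum fun j => hbad j m
    rw [← ENNReal.ofReal_tsum_of_nonneg (fun j => by positivity) hs] at h2
    exact ne_top_of_le_ne_top ENNReal.ofReal_ne_top h2
  have h2 : (volume : Measure ℝ) = volume.restrict (⋃ m : ℤ, Set.Ioc (m : ℝ) (m + 1)) := by
    rw [iUnion_Ioc_intCast, Measure.restrict_univ]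
  rw [h2, ae_restrict_iUnion_iff]
  exact h1

end Pool.Agent.H806.MT
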