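import Mathlib
import Pool.Agent.H806.PD.EQ
import Pool.Agent.H806.MT.B

/-! Gaps between consecutive primes from thin sets. -/

set_option autoImplicit false

namespace Pool.Agent.H806.MT
open Finset MeasureTheory Filter
open Pool.Agent.Helper602.MK (ee)
open Pool.Agent.Helper602.MK.N_J5b (ee_add ee_zero ee_conj norm_ee ee_int)

open Classical in
/-- the primes `p ≤ x`, `p ≡ a (mod q)` followed by the prime `p + D` -/
noncomputable def gapP (q a D x : ℕ) : Finset ℕ :=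
  (Icc 1 x).filter (fun p => p.Prime ∧ p ≡ a [MOD q] ∧ (p + D).Prime ∧ ∀ r, p < r → r < p + D → ¬ r.Prime)

/-- the gap occurs often -/
def Often (q a D : ℕ) : Prop := ∀ η : ℝ, 0 < η → ∃ᶠ x : ℝ in atTop,
  x ^ (1 - η) ≤ ({n : ℕ | (Nat.nth Nat.Prime n : ℝ) ≤ x ∧ Nat.nth Nat.Prime n ≡ a [MOD q] ∧
    Nat.nth Nat.Prime (n + 1) = Nat.nth Nat.Prime n + D}.ncard : ℝ)

lemma ncard_le (q a D : ℕ) (x : ℝ) (X : ℕ) (hx : x ≤ X) :
    ({n : ℕ | (Nat.nth Nat.Prime n : ℝ) ≤ x ∧ Nat.nth Nat.Prime n ≡ a [MOD q] ∧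
    Nat.nth Nat.Prime (n + 1) = Nat.nth Nat.Prime n + D}.ncard) ≤ (gapP q a D X).card := by
  classical
  rw [← Set.ncard_coe_finset]
  apply Set.ncard_le_ncard_of_injOn (fun n => Nat.nth Nat.Prime n)
  · rintro n ⟨h1, h2, h3⟩
    rw [mem_coe, gapP, mem_filter, mem_Icc]
    have hp := Nat.prime_nth_prime n
    have hp' := Nat.prime_nth_prime (n + 1)
    rw [h3] at hp'
    have h4 : Nat.nth Nat.Prime n ≤ X := by
      have : (Nat.nth Nat.Prime n : ℝ) ≤ X := h1.trans hx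
      exact_mod_cast this
    refine ⟨⟨hp.pos, h4⟩, hp, h2, hp', ?_⟩
    intro r hr1 hr2 hr
    have e : Nat.nth Nat.Prime (Nat.count Nat.Prime r) = r := Nat.nth_count hr
    rw [← e] at hr1 hr2
    rw [← h3] at hr2
    have h5 := (Nat.nth_lt_nth Nat.infinite_setOfPred_prime).1 hr1
    have h6 := (Nat.nth_lt_nth Nat.infinite_setOfPred_prime).1 hr2
    omega
  · intro n _ n' _ h
    exact Nat.nth_injective Nat.infinite_setOfPred_prime h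

/-- the sets for the second prime -/
noncomputable def gapQ (q a D j : ℕ) : Finset ℕ := ((gapP q a D (2 ^ j)).image (fun p => p + D)) ∩ Icc 1 (2 ^ (j + 1))

/-- the condition on `β` -/
def GoodB (β : ℝ) : Prop := ∀ q a D : ℕ, ∀ᶠ j in atTop, β ∉ BadS (gapQ q a D) (fun _ _ _ => 1) j

/-- the condition on `α` -/
def GoodA (β α : ℝ) : Prop := ∀ q a D : ℕ, ∀ᶠ j in atTop, α ∉ BadS (fun j => gapP q a D (2 ^ j)) (fun _ l p => ee (l * (β * ((p + D : ℕ) : ℝ) ^ 2))) j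

lemma ae_goodB : ∀ᵐ β : ℝ, GoodB β := by
  unfold GoodB
  rw [ae_all_iff]; intro q
  rw [ae_all_iff]; intro a
  rw [ae_all_iff]; intro D
  apply metric
  · intro j; exact inter_subset_right
  · intro j l a; simp

lemma ae_goodA (β : ℝ) : ∀ᵐ α : ℝ, GoodA β α := by
  classical
  unfold GoodA
  rw [ae_all_iff]; intro q
  rw [ae_all_iff]; intro a
  rw [ae_all_iff]; intro D
  apply metric
  · intro j p hp
    have h1 : p ∈ gapP q a D (2 ^ j) := hp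
    rw [gapP, mem_filter, mem_Icc] at h1
    rw [mem_Icc]
    have h2 : 2 ^ j ≤ 2 ^ (j + 1) := Nat.pow_le_pow_right (by norm_num) (by omega)
    exact ⟨h1.1.1, h1.1.2.trans h2⟩
  · intro j l a; exact (norm_ee _).le

open Classical in
/-- the primes in the thin sets -/
noncomputable def thin (α β : ℝ) (q a D x : ℕ) (u v : ℝ) : Finset ℕ :=
  (Icc 1 x).filter (fun p => (p.Prime ∧ p ≡ a [MOD q] ∧ (p + D).Prime ∧ ∀ r, p < r → r < p + D → ¬ r.Prime) ∧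
    (∃ m : ℤ, |α * (p : ℝ) ^ 2 - u - m| ≤ (x : ℝ) ^ (-(1 / 50) : ℝ)) ∧
    ∃ m : ℤ, |β * ((p + D : ℕ) : ℝ) ^ 2 - v - m| ≤ (x : ℝ) ^ (-(1 / 50) : ℝ))

/-- the transfer at one scale -/
lemma scale (α β : ℝ) (q a D : ℕ) (hA : GoodA β α) (hB : GoodB β) : ∃ j₀ : ℕ, ∀ j : ℕ, j₀ ≤ j →
    (2 : ℝ) ^ ((99 / 100 : ℝ) * j) ≤ ((gapP q a D (2 ^ j)).card : ℝ) → ∀ u v : ℝ,
      (((2 ^ j : ℕ)) : ℝ) ^ (9 / 10 : ℝ) ≤ ((thin α β q a D (2 ^ j) u v).card : ℝ) := by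
  classical
  obtain ⟨j1, h1⟩ := eventually_atTop.1 (hA q a D)
  obtain ⟨j2, h2⟩ := eventually_atTop.1 (hB q a D)
  refine ⟨j1 + j2 + D + 10000, fun j hj hS u v => ?_⟩
  have ha := h1 j (by omega)
  have hb := h2 j (by omega)
  have hjr : (10000 : ℝ) ≤ j := by exact_mod_cast (by omega : 10000 ≤ j)
  have h20 : (0 : ℝ) < 2 := by norm_num
  have hp : ∀ s t : ℝ, s ≤ t → (2 : ℝ) ^ s ≤ (2 : ℝ) ^ t := fun s t h => Real.rpow_le_rpow_of_exponent_le (by norm_num) h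
  set S := gapP q a D (2 ^ j) with hSdef
  set L : ℕ := ⌊(2 : ℝ) ^ ((1 / 20 : ℝ) * j)⌋₊ with hL
  have hLle : (L : ℝ) ≤ (2 : ℝ) ^ ((1 / 20 : ℝ) * j) := Nat.floor_le (by positivity)
  have h16 : (16 : ℝ) ≤ (2 : ℝ) ^ ((1 / 20 : ℝ) * j) := by
    calc (16 : ℝ) = (2 : ℝ) ^ (4 : ℝ) := by norm_num
      _ ≤ _ := hp _ _ (by linarith)
  have hLge : (2 : ℝ) ^ ((1 / 20 : ℝ) * j) / 2 ≤ L := by
    have := Nat.lt_floor_add_one ((2 : ℝ) ^ ((1 / 20 : ℝ) * j))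
    linarith
  have hL2 : 2 ≤ L := by
    have : (2 : ℝ) ≤ L := by linarith
    exact_mod_cast this
  have hL0 : (0 : ℝ) < L := by exact_mod_cast (by omega : 0 < L)
  have hKL : (L : ℝ) ^ 3 ≤ Kj j := by
    calc (L : ℝ) ^ 3 ≤ ((2 : ℝ) ^ ((1 / 20 : ℝ) * j)) ^ 3 := pow_le_pow_left₀ hL0.le hLle 3
      _ = Kj j := by unfold Kj; rw [← Real.rpow_natCast, ← Real.rpow_mul h20.le]; congr 1; push_cast; ring
  have hFk : ∀ k : ℤ, k ∈ Ioo (-((L ^ 3 : ℕ) : ℤ)) (L ^ 3 : ℕ) → |(k : ℝ)| ≤ Kj j := by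
    intro k hk
    rw [Finset.mem_Ioo] at hk
    have h1 : |k| ≤ (L ^ 3 : ℕ) := by rw [abs_le]; omega
    have h2 : |(k : ℝ)| ≤ (L : ℝ) ^ 3 := by exact_mod_cast h1
    exact h2.trans hKL
  have hT0 : 0 ≤ Tj j := by unfold Tj; positivity
  have hK0 : 0 ≤ Kj j := by unfold Kj; positivity
  have hW : ∀ k l : ℤ, k ∈ Ioo (-((L ^ 3 : ℕ) : ℤ)) (L ^ 3 : ℕ) → l ∈ Ioo (-((L ^ 3 : ℕ) : ℤ)) (L ^ 3 : ℕ) →
      (k ≠ 0 ∨ l ≠ 0) → ‖∑ p ∈ S, ee (k * (α * (p : ℝ) ^ 2) + l * (β * ((p + D : ℕ) : ℝ) ^ 2))‖ ≤ Tj j := by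
    intro k l hk hl hkl
    rcases ne_or_eq k 0 with h0 | h0
    · by_contra hcon
      push Not at hcon
      apply ha
      refine ⟨k, l, h0, hFk k hk, hFk l hl, ?_⟩
      have e : Sm (fun j => gapP q a D (2 ^ j)) (fun _ l p => ee (l * (β * ((p + D : ℕ) : ℝ) ^ 2))) j k l α =
          ∑ p ∈ S, ee (k * (α * (p : ℝ) ^ 2) + l * (β * ((p + D : ℕ) : ℝ) ^ 2)) := by
        unfold Sm
        apply sum_congr rfl; intro p _
        rw [← ee_add]; congr 1; ring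
      rw [e]; exact hcon
    · have hl0 : l ≠ 0 := by
        rcases hkl with h | h
        · exact absurd h0 h
        · exact h
      by_contra hcon
      push Not at hcon
      apply hb
      refine ⟨l, 0, hl0, hFk l hl, by simpa using hK0, ?_⟩
      have e : Sm (gapQ q a D) (fun _ _ _ => 1) j l 0 β =
          ∑ p ∈ S, ee (k * (α * (p : ℝ) ^ 2) + l * (β * ((p + D : ℕ) : ℝ) ^ 2)) := by
        unfold Sm gapQ
        rw [inter_eq_left.2, sum_image (fun p _ p' _ h => Nat.add_right_cancel h)]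
        · apply sum_congr rfl; intro p _
          rw [h0, one_mul]; congr 1; push_cast; ring
        · intro r hr
          rw [mem_image] at hr
          obtain ⟨p, hp, rfl⟩ := hr
          rw [← hSdef, hSdef, gapP, mem_filter, mem_Icc] at hp
          rw [mem_Icc]
          have hD : D ≤ 2 ^ j := by
            have : j < 2 ^ j := Nat.lt_two_pow_self
            omega
          rw [pow_succ]
          omega
      rw [e]; exact hcon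
  set b : ℝ := (2 : ℝ) ^ (-(1 / 50 : ℝ) * j) with hbdef
  have hb0 : 0 < b := by positivity
  have hb1 : b ≤ 1 := by
    rw [hbdef]
    calc (2 : ℝ) ^ (-(1 / 50 : ℝ) * j) ≤ (2 : ℝ) ^ (0 : ℝ) := hp _ _ (by linarith)
      _ = 1 := Real.rpow_zero 2
  have key := Pool.Agent.H806.PD.box_count S (fun p : ℕ => α * (p : ℝ) ^ 2) (fun p : ℕ => β * ((p + D : ℕ) : ℝ) ^ 2) L hL2 (Tj j) hT0
    hW u b v b hb0.le hb1 hb0.le hb1
  have hx : (((2 ^ j : ℕ)) : ℝ) = (2 : ℝ) ^ (j : ℝ) := by push_cast; rw [Real.rpow_natCast]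
  have hxb : (((2 ^ j : ℕ)) : ℝ) ^ (-(1 / 50) : ℝ) = b := by
    rw [hx, ← Real.rpow_mul h20.le, hbdef]; congr 1; ring
  have hsub : (S.filter (fun p : ℕ => Int.fract (α * (p : ℝ) ^ 2 - u) < b ∧ Int.fract (β * ((p + D : ℕ) : ℝ) ^ 2 - v) < b)).card ≤
      (thin α β q a D (2 ^ j) u v).card := by
    apply card_le_card
    intro p hp
    rw [mem_filter, hSdef, gapP, mem_filter] at hp
    obtain ⟨⟨g1, g2⟩, g3, g4⟩ := hp
    rw [thin, mem_filter, hxb]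
    refine ⟨g1, g2, ⟨⌊α * (p : ℝ) ^ 2 - u⌋, ?_⟩, ⟨⌊β * ((p + D : ℕ) : ℝ) ^ 2 - v⌋, ?_⟩⟩
    · have : α * (p : ℝ) ^ 2 - u - ⌊α * (p : ℝ) ^ 2 - u⌋ = Int.fract (α * (p : ℝ) ^ 2 - u) := rfl
      rw [this, abs_of_nonneg (Int.fract_nonneg _)]; exact g3.le
    · have : β * ((p + D : ℕ) : ℝ) ^ 2 - v - ⌊β * ((p + D : ℕ) : ℝ) ^ 2 - v⌋ = Int.fract (β * ((p + D : ℕ) : ℝ) ^ 2 - v) := rfl
      rw [this, abs_of_nonneg (Int.fract_nonneg _)]; exact g4.le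
  have hsub' : ((S.filter (fun p : ℕ => Int.fract (α * (p : ℝ) ^ 2 - u) < b ∧ Int.fract (β * ((p + D : ℕ) : ℝ) ^ 2 - v) < b)).card : ℝ) ≤
      ((thin α β q a D (2 ^ j) u v).card : ℝ) := by exact_mod_cast hsub
  refine le_trans ?_ hsub'
  have hlow : b * b * (S.card : ℝ) - (48 * S.card / L + 32 * (L : ℝ) ^ 6 * Tj j) ≤
      ((S.filter (fun p : ℕ => Int.fract (α * (p : ℝ) ^ 2 - u) < b ∧ Int.fract (β * ((p + D : ℕ) : ℝ) ^ 2 - v) < b)).card : ℝ) := by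
    have := (abs_le.1 key).1
    linarith
  refine le_trans ?_ hlow
  have hScard : (0 : ℝ) ≤ S.card := Nat.cast_nonneg _
  have hbb : b * b = (2 : ℝ) ^ (-(1 / 25 : ℝ) * j) := by
    rw [hbdef, ← Real.rpow_add h20]; congr 1; ring
  -- first error
  have i1 : 48 * (S.card : ℝ) / L ≤ (1 / 4) * (b * b * S.card) := by
    rw [div_le_iff₀ hL0]
    have h3 : (48 : ℝ) ≤ (1 / 4) * (b * b) * L := by
      have h4 : (1 / 4) * (b * b) * ((2 : ℝ) ^ ((1 / 20 : ℝ) * j) / 2) ≤ (1 / 4) * (b * b) * L := mul_le_mul_of_nonneg_left hLge (by positivity)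
      refine le_trans ?_ h4
      have h5 : (1 / 4) * (b * b) * ((2 : ℝ) ^ ((1 / 20 : ℝ) * j) / 2) = (1 / 8) * (2 : ℝ) ^ ((1 / 100 : ℝ) * j) := by
        rw [hbb]
        have : (2 : ℝ) ^ ((1 / 100 : ℝ) * j) = (2 : ℝ) ^ (-(1 / 25 : ℝ) * j) * (2 : ℝ) ^ ((1 / 20 : ℝ) * j) := by
          rw [← Real.rpow_add h20]; congr 1; ring
        rw [this]; ring
      rw [h5]
      have h6 : (512 : ℝ) ≤ (2 : ℝ) ^ ((1 / 100 : ℝ) * j) := by
        calc (512 : ℝ) = (2 : ℝ) ^ (9 : ℝ) := by norm_num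
          _ ≤ _ := hp _ _ (by linarith)
      linarith
    calc 48 * (S.card : ℝ) ≤ ((1 / 4) * (b * b) * L) * S.card := mul_le_mul_of_nonneg_right h3 hScard
      _ = _ := by ring
  have i2 : 32 * (L : ℝ) ^ 6 * Tj j ≤ (1 / 4) * (b * b * S.card) := by
    have h3 : (L : ℝ) ^ 6 * Tj j ≤ (2 : ℝ) ^ ((9 / 10 : ℝ) * j) := by
      calc (L : ℝ) ^ 6 * Tj j ≤ ((2 : ℝ) ^ ((1 / 20 : ℝ) * j)) ^ 6 * Tj j := mul_le_mul_of_nonneg_right (pow_le_pow_left₀ hL0.le hLle 6) hT0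
        _ = _ := by unfold Tj; rw [← Real.rpow_natCast, ← Real.rpow_mul h20.le, ← Real.rpow_add h20]; congr 1; push_cast; ring
    have h4 : (2 : ℝ) ^ ((19 / 20 : ℝ) * j) ≤ b * b * S.card := by
      calc (2 : ℝ) ^ ((19 / 20 : ℝ) * j) = b * b * (2 : ℝ) ^ ((99 / 100 : ℝ) * j) := by
            rw [hbb, ← Real.rpow_add h20]; congr 1; ring
        _ ≤ _ := mul_le_mul_of_nonneg_left hS (by positivity)
    have h5 : 128 * (2 : ℝ) ^ ((9 / 10 : ℝ) * j) ≤ (2 : ℝ) ^ ((19 / 20 : ℝ) * j) := by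
      calc 128 * (2 : ℝ) ^ ((9 / 10 : ℝ) * j) = (2 : ℝ) ^ ((7 : ℝ) + (9 / 10 : ℝ) * j) := by
            rw [Real.rpow_add h20]; norm_num
        _ ≤ _ := hp _ _ (by linarith)
    linarith
  have i3 : (((2 ^ j : ℕ)) : ℝ) ^ (9 / 10 : ℝ) ≤ (1 / 2) * (b * b * S.card) := by
    rw [hx, ← Real.rpow_mul h20.le]
    have h4 : (2 : ℝ) ^ ((19 / 20 : ℝ) * j) ≤ b * b * S.card := by
      calc (2 : ℝ) ^ ((19 / 20 : ℝ) * j) = b * b * (2 : ℝ) ^ ((99 / 100 : ℝ) * j) := by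
            rw [hbb, ← Real.rpow_add h20]; congr 1; ring
        _ ≤ _ := mul_le_mul_of_nonneg_left hS (by positivity)
    have h5 : 2 * (2 : ℝ) ^ ((j : ℝ) * (9 / 10 : ℝ)) ≤ (2 : ℝ) ^ ((19 / 20 : ℝ) * j) := by
      calc 2 * (2 : ℝ) ^ ((j : ℝ) * (9 / 10 : ℝ)) = (2 : ℝ) ^ ((1 : ℝ) + (j : ℝ) * (9 / 10 : ℝ)) := by
            rw [Real.rpow_add h20, Real.rpow_one]
        _ ≤ _ := hp _ _ (by linarith)
    linarith
  linarith

/-- every frequent gap occurs in the thin sets -/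
theorem transfer (α β : ℝ) (hA : GoodA β α) (hB : GoodB β) (q a D : ℕ) (hO : Often q a D) :
    ∀ X : ℕ, ∃ x : ℕ, X ≤ x ∧ ∀ u v : ℝ, (x : ℝ) ^ (9 / 10 : ℝ) ≤ ((thin α β q a D x u v).card : ℝ) := by
  obtain ⟨j₀, hj⟩ := scale α β q a D hA hB
  intro X
  have h1 := frequently_atTop.1 (hO (1 / 200) (by norm_num)) ((2 : ℝ) ^ (j₀ + X + 1000))
  obtain ⟨x, hx, hxc⟩ := h1
  have hx1 : (1 : ℝ) ≤ x := le_trans (one_le_pow₀ (by norm_num)) hx
  have hfx : 1 ≤ ⌊x⌋₊ := Nat.le_floor (by push_cast; exact hx1)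
  set j : ℕ := Nat.log 2 ⌊x⌋₊ + 1 with hjdef
  have hlow : 2 ^ (j - 1) ≤ ⌊x⌋₊ := by
    rw [hjdef, Nat.add_sub_cancel]; exact Nat.pow_log_le_self 2 (by omega)
  have hup : ⌊x⌋₊ < 2 ^ j := Nat.lt_pow_succ_log_self (by norm_num) _
  have hup' : x ≤ ((2 ^ j : ℕ) : ℝ) := by
    have := Nat.lt_floor_add_one x
    have h2 : ((⌊x⌋₊ + 1 : ℕ) : ℝ) ≤ ((2 ^ j : ℕ) : ℝ) := by exact_mod_cast hup
    push_cast at h2 ⊢
    linarith
  have hlow' : (2 : ℝ) ^ (j - 1) ≤ x := by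
    have h2 : (((2 ^ (j - 1) : ℕ)) : ℝ) ≤ (⌊x⌋₊ : ℝ) := by exact_mod_cast hlow
    have h3 := Nat.floor_le (by linarith : (0 : ℝ) ≤ x)
    push_cast at h2
    linarith
  have hjX : j₀ + X + 1000 ≤ j := by
    by_contra hcon
    push Not at hcon
    have h2 : (2 : ℝ) ^ j ≤ (2 : ℝ) ^ (j₀ + X + 1000 - 1) := pow_le_pow_right₀ (by norm_num) (by omega)
    have h3 : (2 : ℝ) ^ (j₀ + X + 1000 - 1) < (2 : ℝ) ^ (j₀ + X + 1000) := pow_lt_pow_right₀ (by norm_num) (by omega)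
    push_cast at hup'
    linarith
  refine ⟨2 ^ j, ?_, hj j (by omega) ?_⟩
  · have : j < 2 ^ j := Nat.lt_two_pow_self
    omega
  · have h2 : ((Set.ncard {n : ℕ | (Nat.nth Nat.Prime n : ℝ) ≤ x ∧ Nat.nth Nat.Prime n ≡ a [MOD q] ∧
        Nat.nth Nat.Prime (n + 1) = Nat.nth Nat.Prime n + D} : ℕ) : ℝ) ≤ ((gapP q a D (2 ^ j)).card : ℝ) := by
      exact_mod_cast ncard_le q a D x (2 ^ j) hup'
    refine le_trans ?_ (hxc.trans h2)
    have hjr : (1000 : ℝ) ≤ j := by exact_mod_cast (by omega : 1000 ≤ j)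
    calc (2 : ℝ) ^ ((99 / 100 : ℝ) * j) ≤ (2 : ℝ) ^ (((j : ℝ) - 1) * (1 - 1 / 200)) :=
          Real.rpow_le_rpow_of_exponent_le (by norm_num) (by linarith)
      _ = ((2 : ℝ) ^ (j - 1)) ^ (1 - 1 / 200 : ℝ) := by
          rw [← Real.rpow_natCast, ← Real.rpow_mul (by norm_num), Nat.cast_sub (by omega)]; push_cast; rfl
      _ ≤ x ^ (1 - 1 / 200 : ℝ) := Real.rpow_le_rpow (by positivity) hlow' (by norm_num)

end Pool.Agent.H806.MT
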