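import Mathlib
import Pool.Agent.H806.PD.EQ
import Pool.Agent.H806.PD.S2
import Pool.Agent.H806.MT.B

/-! Goldbach representations, for almost all `α`, `β` and for every `n`. -/

set_option autoImplicit false

namespace Pool.Agent.H806.MT
open Finset MeasureTheory Filter
open Pool.Agent.Helper602.MK (ee)
open Pool.Agent.Helper602.MK.N_J5b (ee_add ee_zero ee_conj norm_ee ee_int)

/-- the exceptional set for `n` -/
def BadN (A : ℕ → Finset ℕ) (c : ℕ → ℤ → ℕ → ℂ) (n : ℕ) : Set ℝ :=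
  {x | ∃ k l : ℤ, k ≠ 0 ∧ |(k : ℝ)| ≤ (n : ℝ) ^ (3 / 100 : ℝ) ∧ |(l : ℝ)| ≤ (n : ℝ) ^ (3 / 100 : ℝ) ∧
    (n : ℝ) ^ (39 / 50 : ℝ) < ‖Sm A c n k l x‖}

lemma badN_measure (A : ℕ → Finset ℕ) (hA : ∀ n, A n ⊆ Icc 1 n) (c : ℕ → ℤ → ℕ → ℂ) (hc : ∀ j l a, ‖c j l a‖ ≤ 1) :
    ∃ C : ℝ, 0 < C ∧ ∀ (n : ℕ) (m : ℤ), 1 ≤ n → (volume.restrict (Set.Ioc (m : ℝ) (m + 1))) (BadN A c n) ≤
      ENNReal.ofReal (C * (n : ℝ) ^ (-(26 / 25) : ℝ)) := by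
  classical
  obtain ⟨C, hC, hE⟩ := E4_le (1 / 100) (by norm_num)
  refine ⟨9 * C, by positivity, fun n m hn => ?_⟩
  have hn1 : (1 : ℝ) ≤ n := by exact_mod_cast hn
  have hn0 : (0 : ℝ) < n := by linarith
  set μ := volume.restrict (Set.Ioc (m : ℝ) (m + 1)) with hμ
  obtain ⟨T, hT⟩ : ∃ T, T = (n : ℝ) ^ (39 / 50 : ℝ) := ⟨_, rfl⟩
  obtain ⟨K, hK⟩ : ∃ K, K = (n : ℝ) ^ (3 / 100 : ℝ) := ⟨_, rfl⟩
  have hT0 : 0 < T := by rw [hT]; positivity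
  have hK0 : 0 < K := by rw [hK]; positivity
  have hK1 : 1 ≤ K := by rw [hK]; exact Real.one_le_rpow hn1 (by norm_num)
  set F : Finset ℤ := Icc (-⌊K⌋) ⌊K⌋ with hF
  have hFmem : ∀ k : ℤ, |(k : ℝ)| ≤ K → k ∈ F := by
    intro k hk
    rw [abs_le] at hk
    rw [hF, Finset.mem_Icc]
    constructor
    · have : -k ≤ ⌊K⌋ := Int.le_floor.2 (by push_cast; linarith [hk.1])
      linarith
    · exact Int.le_floor.2 hk.2
  have hFc : (F.card : ℝ) ≤ 3 * K := by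
    rw [hF, Int.card_Icc]
    have h1 : (⌊K⌋ : ℝ) ≤ K := Int.floor_le _
    have h2 : (0 : ℤ) ≤ ⌊K⌋ := Int.floor_nonneg.2 hK0.le
    have h3 : (((⌊K⌋ + 1 - -⌊K⌋).toNat : ℕ) : ℝ) = 2 * (⌊K⌋ : ℝ) + 1 := by
      have : (((⌊K⌋ + 1 - -⌊K⌋).toNat : ℕ) : ℤ) = 2 * ⌊K⌋ + 1 := by
        rw [Int.toNat_of_nonneg (by linarith)]; ring
      exact_mod_cast this
    rw [h3]; linarith
  obtain ⟨V, hV⟩ : ∃ V, V = C * (n : ℝ) ^ (1 / 50 : ℝ) * (n : ℝ) ^ 2 / T ^ 4 := ⟨_, rfl⟩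
  have hV0 : 0 ≤ V := by rw [hV]; positivity
  have hone : ∀ k l : ℤ, k ≠ 0 → μ {x | T < ‖Sm A c n k l x‖} ≤ ENNReal.ofReal V := by
    intro k l hk
    have h1 : ∫ x in (m : ℝ)..((m : ℝ) + 1), ‖Sm A c n k l x‖ ^ 4 ≤ E4 (A n) := fourth (A n) (c n l) (hc n l) k hk m
    have h2 : (E4 (A n) : ℝ) ≤ C * (n : ℝ) ^ (1 / 50 : ℝ) * (n : ℝ) ^ 2 := by
      have h3 := hE n (A n) hn (hA n)
      have h4 : ((A n).card : ℝ) ≤ (n : ℝ) := by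
        have := card_le_card (hA n)
        rw [Nat.card_Icc, Nat.add_sub_cancel] at this
        exact_mod_cast this
      calc (E4 (A n) : ℝ) ≤ C * (n : ℝ) ^ (2 * (1 / 100) : ℝ) * ((A n).card : ℝ) ^ 2 := h3
        _ ≤ C * (n : ℝ) ^ (2 * (1 / 100) : ℝ) * (n : ℝ) ^ 2 := by
            apply mul_le_mul_of_nonneg_left _ (by positivity)
            exact pow_le_pow_left₀ (Nat.cast_nonneg _) h4 2
        _ = _ := by norm_num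
    have hcont : Continuous (fun x => ‖Sm A c n k l x‖ ^ 4) := ((Sm_cont A c n k l).norm).pow 4
    have hint : Integrable (fun x => ‖Sm A c n k l x‖ ^ 4) μ := by
      have := hcont.intervalIntegrable (μ := volume) (m : ℝ) ((m : ℝ) + 1)
      rwa [intervalIntegrable_iff_integrableOn_Ioc_of_le (by linarith)] at this
    have h5 : ∫ x, ‖Sm A c n k l x‖ ^ 4 ∂μ ≤ C * (n : ℝ) ^ (1 / 50 : ℝ) * (n : ℝ) ^ 2 := by
      have : ∫ x, ‖Sm A c n k l x‖ ^ 4 ∂μ = ∫ x in (m : ℝ)..((m : ℝ) + 1), ‖Sm A c n k l x‖ ^ 4 := by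
        rw [intervalIntegral.integral_of_le (by linarith)]
      rw [this]; exact h1.trans h2
    have h6 := mul_meas_ge_le_integral_of_nonneg (μ := μ) (f := fun x => ‖Sm A c n k l x‖ ^ 4)
      (Filter.Eventually.of_forall fun x => by positivity) hint (T ^ 4)
    have h7 : {x | T < ‖Sm A c n k l x‖} ⊆ {x | T ^ 4 ≤ ‖Sm A c n k l x‖ ^ 4} := by
      intro x hx
      exact pow_le_pow_left₀ hT0.le (le_of_lt hx) 4
    have h8 : μ.real {x | T ^ 4 ≤ ‖Sm A c n k l x‖ ^ 4} ≤ V := by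
      rw [hV, le_div_iff₀ (by positivity), mul_comm]
      exact h6.trans h5
    have hfin : μ {x | T ^ 4 ≤ ‖Sm A c n k l x‖ ^ 4} ≠ ⊤ := measure_ne_top _ _
    calc μ {x | T < ‖Sm A c n k l x‖} ≤ μ {x | T ^ 4 ≤ ‖Sm A c n k l x‖ ^ 4} := measure_mono h7
      _ = ENNReal.ofReal (μ.real {x | T ^ 4 ≤ ‖Sm A c n k l x‖ ^ 4}) := (ENNReal.ofReal_toReal hfin).symm
      _ ≤ _ := ENNReal.ofReal_le_ofReal h8
  have hsub : BadN A c n ⊆ ⋃ r ∈ (F ×ˢ F).filter (fun r => r.1 ≠ 0), {x | T < ‖Sm A c n r.1 r.2 x‖} := by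
    rintro x ⟨k, l, hk, hk1, hl1, hx⟩
    rw [← hK] at hk1 hl1
    rw [← hT] at hx
    rw [Set.mem_iUnion₂]
    exact ⟨(k, l), by rw [mem_filter, mem_product]; exact ⟨⟨hFmem k hk1, hFmem l hl1⟩, hk⟩, hx⟩
  calc μ (BadN A c n) ≤ μ (⋃ r ∈ (F ×ˢ F).filter (fun r => r.1 ≠ 0), {x | T < ‖Sm A c n r.1 r.2 x‖}) := measure_mono hsub
    _ ≤ ∑ r ∈ (F ×ˢ F).filter (fun r => r.1 ≠ 0), μ {x | T < ‖Sm A c n r.1 r.2 x‖} := measure_biUnion_finset_le _ _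
    _ ≤ ∑ r ∈ (F ×ˢ F).filter (fun r => r.1 ≠ 0), ENNReal.ofReal V := sum_le_sum fun r hr => hone r.1 r.2 (mem_filter.1 hr).2
    _ = ((F ×ˢ F).filter (fun r => r.1 ≠ 0)).card * ENNReal.ofReal V := by rw [sum_const, nsmul_eq_mul]
    _ = ENNReal.ofReal (((F ×ˢ F).filter (fun r => r.1 ≠ 0)).card * V) := by
        rw [ENNReal.ofReal_mul (Nat.cast_nonneg _), ENNReal.ofReal_natCast]
    _ ≤ _ := by
        apply ENNReal.ofReal_le_ofReal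
        have h1 : (((F ×ˢ F).filter (fun r => r.1 ≠ 0)).card : ℝ) ≤ 9 * K ^ 2 := by
          have h2 : (((F ×ˢ F).filter (fun r => r.1 ≠ 0)).card : ℝ) ≤ (F.card : ℝ) * F.card := by
            have := card_filter_le (F ×ˢ F) (fun r => r.1 ≠ 0)
            rw [card_product] at this
            exact_mod_cast this
          have h3 : (F.card : ℝ) * F.card ≤ (3 * K) * (3 * K) := mul_le_mul hFc hFc (Nat.cast_nonneg _) (by positivity)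
          calc _ ≤ (3 * K) * (3 * K) := h2.trans h3
            _ = _ := by ring
        refine (mul_le_mul_of_nonneg_right h1 hV0).trans ?_
        have e1 : K ^ 2 = (n : ℝ) ^ (3 / 50 : ℝ) := by
          rw [hK, ← Real.rpow_natCast, ← Real.rpow_mul hn0.le]; norm_num
        have e2 : T ^ 4 = (n : ℝ) ^ (78 / 25 : ℝ) := by
          rw [hT, ← Real.rpow_natCast, ← Real.rpow_mul hn0.le]; norm_num
        have e4 : (n : ℝ) ^ 2 = (n : ℝ) ^ (2 : ℝ) := by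
          rw [← Real.rpow_natCast]; norm_num
        have e5 : (n : ℝ) ^ (-(26 / 25) : ℝ) = (n : ℝ) ^ ((3 / 50 : ℝ) + (1 / 50 : ℝ) + (2 : ℝ) - (78 / 25 : ℝ)) := by norm_num
        rw [hV, e1, e2, e4, e5, Real.rpow_sub hn0, Real.rpow_add hn0, Real.rpow_add hn0]
        apply le_of_eq; ring

theorem metricN (A : ℕ → Finset ℕ) (hA : ∀ n, A n ⊆ Icc 1 n) (c : ℕ → ℤ → ℕ → ℂ) (hc : ∀ j l a, ‖c j l a‖ ≤ 1) :
    ∀ᵐ x : ℝ, ∀ᶠ n in atTop, x ∉ BadN A c n := by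
  obtain ⟨C, hC, hbad⟩ := badN_measure A hA c hc
  have h1 : ∀ m : ℤ, ∀ᵐ x ∂(volume.restrict (Set.Ioc (m : ℝ) (m + 1))), ∀ᶠ n in atTop, x ∉ BadN A c (n + 1) := by
    intro m
    apply ae_eventually_notMem
    have hs0 : Summable (fun n : ℕ => (n : ℝ) ^ (-(26 / 25) : ℝ)) := Real.summable_nat_rpow.2 (by norm_num)
    have hs1 : Summable (fun n : ℕ => (((n + 1 : ℕ)) : ℝ) ^ (-(26 / 25) : ℝ)) := (summable_nat_add_iff 1).2 hs0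
    have hs : Summable (fun n : ℕ => C * (((n + 1 : ℕ)) : ℝ) ^ (-(26 / 25) : ℝ)) := hs1.mul_left C
    have h2 : ∑' n : ℕ, (volume.restrict (Set.Ioc (m : ℝ) (m + 1))) (BadN A c (n + 1)) ≤
        ∑' n : ℕ, ENNReal.ofReal (C * (((n + 1 : ℕ)) : ℝ) ^ (-(26 / 25) : ℝ)) :=
      ENNReal.tsum_le_tsum fun n => hbad (n + 1) m (by omega)
    rw [← ENNReal.ofReal_tsum_of_nonneg (fun j => by positivity) hs] at h2
    exact ne_top_of_le_ne_top ENNReal.ofReal_ne_top h2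
  have h2 : (volume : Measure ℝ) = volume.restrict (⋃ m : ℤ, Set.Ioc (m : ℝ) (m + 1)) := by
    rw [iUnion_Ioc_intCast, Measure.restrict_univ]
  rw [h2, ae_restrict_iUnion_iff]
  intro m
  filter_upwards [h1 m] with x hx
  obtain ⟨n₀, hn₀⟩ := eventually_atTop.1 hx
  rw [eventually_atTop]
  refine ⟨n₀ + 1, fun n hn => ?_⟩
  have := hn₀ (n - 1) (by omega)
  rwa [show n - 1 + 1 = n by omega] at this

/-- the primes `p` with `n - p` prime -/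
def repG (n : ℕ) : Finset ℕ := (Icc 1 n).filter (fun p => p.Prime ∧ (n - p).Prime)

lemma mem_repG (n p : ℕ) : p ∈ repG n ↔ (1 ≤ p ∧ p ≤ n) ∧ p.Prime ∧ (n - p).Prime := by
  rw [repG, mem_filter, mem_Icc]

/-- reflection -/
lemma repG_refl (n : ℕ) (f : ℕ → ℂ) : ∑ p ∈ repG n, f (n - p) = ∑ p ∈ repG n, f p := by
  apply sum_nbij' (fun p => n - p) (fun p => n - p)
  · intro p hp
    rw [mem_repG] at hp ⊢
    have h1 := hp.2.2.pos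
    refine ⟨⟨by omega, by omega⟩, hp.2.2, ?_⟩
    rw [show n - (n - p) = p by omega]; exact hp.2.1
  · intro p hp
    rw [mem_repG] at hp ⊢
    have h1 := hp.2.2.pos
    refine ⟨⟨by omega, by omega⟩, hp.2.2, ?_⟩
    rw [show n - (n - p) = p by omega]; exact hp.2.1
  · intro p hp; rw [mem_repG] at hp; show n - (n - p) = p; omega
  · intro p hp; rw [mem_repG] at hp; show n - (n - p) = p; omega
  · intro p hp; rfl

def GB (β : ℝ) : Prop := ∀ᶠ n in atTop, β ∉ BadN repG (fun _ _ _ => 1) n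
def GA (β α : ℝ) : Prop := ∀ᶠ n in atTop, α ∉ BadN repG (fun n l p => ee (l * (β * ((n - p : ℕ) : ℝ) ^ 2))) n

lemma ae_GB : ∀ᵐ β : ℝ, GB β := metricN _ (fun _ => filter_subset _ _) _ (by intro _ _ _; simp)
lemma ae_GA (β : ℝ) : ∀ᵐ α : ℝ, GA β α := metricN _ (fun _ => filter_subset _ _) _ (by intro _ _ _; exact (norm_ee _).le)

open Classical in
/-- the number of the representations in a box -/
noncomputable def arcG (α β : ℝ) (n : ℕ) (a₁ b₁ a₂ b₂ : ℝ) : ℕ :=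
  ((repG n).filter (fun p : ℕ => Int.fract (α * (p : ℝ) ^ 2 - a₁) < b₁ ∧ Int.fract (β * ((n - p : ℕ) : ℝ) ^ 2 - a₂) < b₂)).card

/-- equidistribution for every large `n` -/
theorem every_n (α β : ℝ) (hA : GA β α) (hB : GB β) : ∃ n₀ : ℕ, ∀ n : ℕ, n₀ ≤ n → ∀ a₁ b₁ a₂ b₂ : ℝ,
    0 ≤ b₁ → b₁ ≤ 1 → 0 ≤ b₂ → b₂ ≤ 1 →
    |(arcG α β n a₁ b₁ a₂ b₂ : ℝ) - b₁ * b₂ * (repG n).card| ≤ (n : ℝ) ^ (1 - 1 / 200 : ℝ) := by
  classical
  obtain ⟨j1, h1⟩ := eventually_atTop.1 hA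
  obtain ⟨j2, h2⟩ := eventually_atTop.1 hB
  obtain ⟨j3, h3⟩ := Pool.Agent.H806.PD.ev_pow 200 (1 / 200) (by norm_num)
  refine ⟨j1 + j2 + j3 + 1, fun n hn a₁ b₁ a₂ b₂ hb1 hb1' hb2 hb2' => ?_⟩
  have ha := h1 n (by omega)
  have hb := h2 n (by omega)
  have hbig := h3 n (by omega)
  have hn1 : (1 : ℝ) ≤ n := by exact_mod_cast (by omega : 1 ≤ n)
  have hn0 : (0 : ℝ) < n := by linarith
  set L : ℕ := ⌊(n : ℝ) ^ (1 / 100 : ℝ)⌋₊ with hL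
  have hLle : (L : ℝ) ≤ (n : ℝ) ^ (1 / 100 : ℝ) := Nat.floor_le (by positivity)
  have h16 : (200 : ℝ) ≤ (n : ℝ) ^ (1 / 100 : ℝ) := hbig.trans (Real.rpow_le_rpow_of_exponent_le hn1 (by norm_num))
  have hLge : (n : ℝ) ^ (1 / 100 : ℝ) / 2 ≤ L := by
    have := Nat.lt_floor_add_one ((n : ℝ) ^ (1 / 100 : ℝ))
    linarith
  have hL2 : 2 ≤ L := by
    have : (2 : ℝ) ≤ L := by linarith
    exact_mod_cast this
  have hL0 : (0 : ℝ) < L := by exact_mod_cast (by omega : 0 < L)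
  have hKL : (L : ℝ) ^ 3 ≤ (n : ℝ) ^ (3 / 100 : ℝ) := by
    calc (L : ℝ) ^ 3 ≤ ((n : ℝ) ^ (1 / 100 : ℝ)) ^ 3 := pow_le_pow_left₀ hL0.le hLle 3
      _ = _ := by rw [← Real.rpow_natCast, ← Real.rpow_mul hn0.le]; norm_num
  have hFk : ∀ k : ℤ, k ∈ Ioo (-((L ^ 3 : ℕ) : ℤ)) (L ^ 3 : ℕ) → |(k : ℝ)| ≤ (n : ℝ) ^ (3 / 100 : ℝ) := by
    intro k hk
    rw [Finset.mem_Ioo] at hk
    have h1 : |k| ≤ (L ^ 3 : ℕ) := by rw [abs_le]; omega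
    have h2 : |(k : ℝ)| ≤ (L : ℝ) ^ 3 := by exact_mod_cast h1
    exact h2.trans hKL
  have hW : ∀ k l : ℤ, k ∈ Ioo (-((L ^ 3 : ℕ) : ℤ)) (L ^ 3 : ℕ) → l ∈ Ioo (-((L ^ 3 : ℕ) : ℤ)) (L ^ 3 : ℕ) →
      (k ≠ 0 ∨ l ≠ 0) → ‖∑ p ∈ repG n, ee (k * (α * (p : ℝ) ^ 2) + l * (β * ((n - p : ℕ) : ℝ) ^ 2))‖ ≤ (n : ℝ) ^ (39 / 50 : ℝ) := by
    intro k l hk hl hkl
    rcases ne_or_eq k 0 with h0 | h0
    · by_contra hcon
      push Not at hcon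
      apply ha
      refine ⟨k, l, h0, hFk k hk, hFk l hl, ?_⟩
      have e : Sm repG (fun n l p => ee (l * (β * ((n - p : ℕ) : ℝ) ^ 2))) n k l α =
          ∑ p ∈ repG n, ee (k * (α * (p : ℝ) ^ 2) + l * (β * ((n - p : ℕ) : ℝ) ^ 2)) := by
        unfold Sm
        apply sum_congr rfl; intro p _
        rw [← ee_add]; congr 1; ring
      rw [e]; exact hcon
    · have hl0 : l ≠ 0 := by
        rcases hkl with h | h
        · exact absurd h0 h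
        · exact h
      by_contra hcon
      push Not at hcon
      apply hb
      refine ⟨l, 0, hl0, hFk l hl, by rw [Int.cast_zero, abs_zero]; positivity, ?_⟩
      have e : Sm repG (fun _ _ _ => 1) n l 0 β =
          ∑ p ∈ repG n, ee (k * (α * (p : ℝ) ^ 2) + l * (β * ((n - p : ℕ) : ℝ) ^ 2)) := by
        have e2 := repG_refl n (fun p => ee (l * (β * (p : ℝ) ^ 2)))
        unfold Sm
        rw [h0]
        calc ∑ a ∈ repG n, 1 * ee (l * β * (a : ℝ) ^ 2) = ∑ p ∈ repG n, ee (l * (β * (p : ℝ) ^ 2)) := by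
              apply sum_congr rfl; intro p _
              rw [one_mul]; congr 1; ring
          _ = ∑ p ∈ repG n, ee (l * (β * ((n - p : ℕ) : ℝ) ^ 2)) := e2.symm
          _ = _ := by
              apply sum_congr rfl; intro p _
              congr 1; push_cast; ring
      rw [e]; exact hcon
  have key := Pool.Agent.H806.PD.box_count (repG n) (fun p : ℕ => α * (p : ℝ) ^ 2) (fun p : ℕ => β * ((n - p : ℕ) : ℝ) ^ 2) L hL2
    ((n : ℝ) ^ (39 / 50 : ℝ)) (by positivity) hW a₁ b₁ a₂ b₂ hb1 hb1' hb2 hb2'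
  have hcard : ((repG n).card : ℝ) ≤ n := by
    have := card_filter_le (Icc 1 n) (fun p => p.Prime ∧ (n - p).Prime)
    rw [Nat.card_Icc, Nat.add_sub_cancel] at this
    exact_mod_cast this
  have key' : |(arcG α β n a₁ b₁ a₂ b₂ : ℝ) - b₁ * b₂ * (repG n).card| ≤
      48 * (repG n).card / L + 32 * (L : ℝ) ^ 6 * (n : ℝ) ^ (39 / 50 : ℝ) := by
    unfold arcG
    convert key using 6
  refine key'.trans ?_
  have g1 : 48 * ((repG n).card : ℝ) / L ≤ 96 * (n : ℝ) ^ (99 / 100 : ℝ) := by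
    rw [div_le_iff₀ hL0]
    have h4 : (n : ℝ) = (n : ℝ) ^ (99 / 100 : ℝ) * (n : ℝ) ^ (1 / 100 : ℝ) := by
      rw [← Real.rpow_add hn0]; norm_num
    calc 48 * ((repG n).card : ℝ) ≤ 48 * n := by linarith
      _ = 96 * (n : ℝ) ^ (99 / 100 : ℝ) * ((n : ℝ) ^ (1 / 100 : ℝ) / 2) := by nth_rewrite 1 [h4]; ring
      _ ≤ _ := mul_le_mul_of_nonneg_left hLge (by positivity)
  have g2 : (L : ℝ) ^ 6 * (n : ℝ) ^ (39 / 50 : ℝ) ≤ (n : ℝ) ^ (99 / 100 : ℝ) := by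
    calc (L : ℝ) ^ 6 * (n : ℝ) ^ (39 / 50 : ℝ) ≤ ((n : ℝ) ^ (1 / 100 : ℝ)) ^ 6 * (n : ℝ) ^ (39 / 50 : ℝ) :=
          mul_le_mul_of_nonneg_right (pow_le_pow_left₀ hL0.le hLle 6) (by positivity)
      _ = (n : ℝ) ^ ((6 / 100 : ℝ) + 39 / 50) := by
          rw [← Real.rpow_natCast, ← Real.rpow_mul hn0.le, ← Real.rpow_add hn0]; norm_num
      _ ≤ _ := Real.rpow_le_rpow_of_exponent_le hn1 (by norm_num)
  have g3 : (n : ℝ) ^ (1 - 1 / 200 : ℝ) = (n : ℝ) ^ (1 / 200 : ℝ) * (n : ℝ) ^ (99 / 100 : ℝ) := by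
    rw [← Real.rpow_add hn0]; norm_num
  rw [g3]
  have g4 : 200 * (n : ℝ) ^ (99 / 100 : ℝ) ≤ (n : ℝ) ^ (1 / 200 : ℝ) * (n : ℝ) ^ (99 / 100 : ℝ) :=
    mul_le_mul_of_nonneg_right hbig (by positivity)
  have g5 : 0 ≤ (n : ℝ) ^ (99 / 100 : ℝ) := by positivity
  have e3 : 32 * (L : ℝ) ^ 6 * (n : ℝ) ^ (39 / 50 : ℝ) = 32 * ((L : ℝ) ^ 6 * (n : ℝ) ^ (39 / 50 : ℝ)) := by ring
  rw [e3]
  linarith

/-- a thin Goldbach representation -/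
def ThinG (α β : ℝ) (n : ℕ) : Prop := ∀ u v : ℝ, ∃ p p' : ℕ, p.Prime ∧ p'.Prime ∧ p ≠ 2 ∧ p' ≠ 2 ∧ p ≠ p' ∧ p + p' = n ∧
  (∃ m : ℤ, |α * (p : ℝ) ^ 2 - u - m| ≤ (n : ℝ) ^ (-(1 / 1000) : ℝ)) ∧ ∃ m : ℤ, |β * (p' : ℝ) ^ 2 - v - m| ≤ (n : ℝ) ^ (-(1 / 1000) : ℝ)

theorem every_rep (α β : ℝ) (n₁ : ℕ) (h : ∀ n : ℕ, n₁ ≤ n → ∀ a₁ b₁ a₂ b₂ : ℝ, 0 ≤ b₁ → b₁ ≤ 1 → 0 ≤ b₂ → b₂ ≤ 1 →
    |(arcG α β n a₁ b₁ a₂ b₂ : ℝ) - b₁ * b₂ * (repG n).card| ≤ (n : ℝ) ^ (1 - 1 / 200 : ℝ)) :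
    ∃ n₀ : ℕ, ∀ n : ℕ, n₀ ≤ n → (n : ℝ) ^ (1 - 1 / 500 : ℝ) ≤ ((repG n).card : ℝ) → ThinG α β n := by
  classical
  obtain ⟨j3, h3⟩ := Pool.Agent.H806.PD.ev_pow 8 (1 / 1000) (by norm_num)
  refine ⟨n₁ + j3 + 1, fun n hn hr u v => ?_⟩
  have hbig := h3 n (by omega)
  have hn1 : (1 : ℝ) ≤ n := by exact_mod_cast (by omega : 1 ≤ n)
  have hn0 : (0 : ℝ) < n := by linarith
  obtain ⟨b, hb⟩ : ∃ b, b = (n : ℝ) ^ (-(1 / 1000) : ℝ) := ⟨_, rfl⟩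
  have hb0 : 0 < b := by rw [hb]; positivity
  have hb1 : b ≤ 1 := by rw [hb]; exact Real.rpow_le_one_of_one_le_of_nonpos hn1 (by norm_num)
  have key := h n (by omega) u b v b hb0.le hb1 hb0.le hb1
  have h5 : (n : ℝ) ^ (1 - 1 / 250 : ℝ) ≤ b * b * (repG n).card := by
    calc (n : ℝ) ^ (1 - 1 / 250 : ℝ) = b * b * (n : ℝ) ^ (1 - 1 / 500 : ℝ) := by
          rw [hb, ← Real.rpow_add hn0, ← Real.rpow_add hn0]; norm_num
      _ ≤ _ := mul_le_mul_of_nonneg_left hr (by positivity)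
  have h6 : 8 * (n : ℝ) ^ (1 - 1 / 200 : ℝ) ≤ (n : ℝ) ^ (1 - 1 / 250 : ℝ) := by
    calc 8 * (n : ℝ) ^ (1 - 1 / 200 : ℝ) ≤ (n : ℝ) ^ (1 / 1000 : ℝ) * (n : ℝ) ^ (1 - 1 / 200 : ℝ) :=
          mul_le_mul_of_nonneg_right hbig (by positivity)
      _ = _ := by rw [← Real.rpow_add hn0]; norm_num
  have h7 : (1 : ℝ) ≤ (n : ℝ) ^ (1 - 1 / 200 : ℝ) := Real.one_le_rpow hn1 (by norm_num)
  have h8 : (7 : ℝ) ≤ (arcG α β n u b v b : ℝ) := by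
    have := (abs_le.1 key).1
    linarith
  have h9 : 7 ≤ arcG α β n u b v b := by exact_mod_cast h8
  -- remove `p = 2`, `n - p = 2` and `p = n - p`
  set Q := (repG n).filter (fun p : ℕ => Int.fract (α * (p : ℝ) ^ 2 - u) < b ∧ Int.fract (β * ((n - p : ℕ) : ℝ) ^ 2 - v) < b) with hQ
  have hQc : 7 ≤ Q.card := by
    have : arcG α β n u b v b = Q.card := by unfold arcG; rw [hQ]
    rwa [this] at h9
  have h10 : ∃ p ∈ Q, p ∉ ({2, n - 2, n / 2} : Finset ℕ) := by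
    by_contra hcon
    push Not at hcon
    have h11 : Q ⊆ ({2, n - 2, n / 2} : Finset ℕ) := fun p hp => hcon p hp
    have h12 := card_le_card h11
    have h13 : ({2, n - 2, n / 2} : Finset ℕ).card ≤ 3 := card_le_three
    omega
  obtain ⟨p, hp, hp2⟩ := h10
  rw [hQ, mem_filter, mem_repG] at hp
  obtain ⟨⟨⟨g1, g2⟩, g3, g4⟩, g5, g6⟩ := hp
  simp only [mem_insert, mem_singleton, not_or] at hp2
  have g7 := g4.pos
  refine ⟨p, n - p, g3, g4, hp2.1, by omega, by omega, by omega, ⟨⌊α * (p : ℝ) ^ 2 - u⌋, ?_⟩, ⟨⌊β * ((n - p : ℕ) : ℝ) ^ 2 - v⌋, ?_⟩⟩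
  · have : α * (p : ℝ) ^ 2 - u - ⌊α * (p : ℝ) ^ 2 - u⌋ = Int.fract (α * (p : ℝ) ^ 2 - u) := rfl
    rw [this, abs_of_nonneg (Int.fract_nonneg _), ← hb]; exact g5.le
  · have : β * ((n - p : ℕ) : ℝ) ^ 2 - v - ⌊β * ((n - p : ℕ) : ℝ) ^ 2 - v⌋ = Int.fract (β * ((n - p : ℕ) : ℝ) ^ 2 - v) := rfl
    rw [this, abs_of_nonneg (Int.fract_nonneg _), ← hb]; exact g6.le

end Pool.Agent.H806.MT
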