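import Mathlib
import Pool.Agent.H806.PD.GA
import Pool.Agent.H806.MT.D

/-! Almost all even numbers have many Goldbach representations, in the form used with `every_rep`. -/

set_option autoImplicit false

namespace Pool.Agent.H806.MT
open Finset
open Pool.Agent.W93.PG (WinP cnt)

theorem rep_almost (A n₁ : ℕ) : ∃ N₀ : ℕ, ∀ N : ℕ, N₀ ≤ N → ∃ E : Finset ℕ, (E.card : ℝ) ≤ N / Real.log N ^ A ∧
    ∀ n : ℕ, 0 < n → Even n → n ≤ N → n ∉ E → n₁ ≤ n ∧ (n : ℝ) ^ (1 - 1 / 500 : ℝ) ≤ ((repG n).card : ℝ) := by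
  classical
  obtain ⟨n2, h2⟩ := Pool.Agent.H806.PD.win_almost (1 / 2) (by norm_num) 0 A
  obtain ⟨n3, h3⟩ := Pool.Agent.H806.PD.ev_logpow' 2 (by norm_num) 2 (1 / 500) (by norm_num)
  set c : ℕ := n₁ + n3 + 4 with hc
  obtain ⟨n4, h4⟩ := Pool.Agent.H806.PD.ev_logpow' (2 * c) (by positivity) A (1 / 2) (by norm_num)
  refine ⟨n2 + n4 + 4, fun N hN => ?_⟩
  have hN4 : (4 : ℝ) ≤ N := by exact_mod_cast (by omega : 4 ≤ N)
  have hN1 : (1 : ℝ) ≤ N := by linarith
  have hN0 : (0 : ℝ) < N := by linarith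
  have hLN : 0 < Real.log N := Real.log_pos (by linarith)
  obtain ⟨E, hE1, hE2⟩ := h2 N (by omega)
  have e4 := h4 N (by omega)
  refine ⟨E ∪ range c, ?_, ?_⟩
  · have g1 : ((E ∪ range c).card : ℝ) ≤ E.card + c := by
      have i1 := card_union_le E (range c)
      rw [card_range] at i1
      exact_mod_cast i1
    have g2 : (c : ℝ) ≤ N / Real.log N ^ A / 2 := by
      rw [div_div, le_div_iff₀ (by positivity)]
      calc (c : ℝ) * (Real.log N ^ A * 2) = 2 * c * Real.log N ^ A := by ring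
        _ ≤ (N : ℝ) ^ (1 / 2 : ℝ) := e4
        _ ≤ (N : ℝ) ^ (1 : ℝ) := Real.rpow_le_rpow_of_exponent_le hN1 (by norm_num)
        _ = N := Real.rpow_one _
    have g3 : 0 ≤ (N : ℝ) / Real.log N ^ A := by positivity
    linarith
  · intro n hn0 hne hnN hnE
    rw [mem_union, mem_range, not_or, not_lt] at hnE
    have hnc := hnE.2
    refine ⟨by omega, ?_⟩
    have hn4 : (4 : ℝ) ≤ n := by exact_mod_cast (by omega : 4 ≤ n)
    have hnr0 : (0 : ℝ) < n := by linarith
    have hLn : 0 < Real.log n := Real.log_pos (by linarith)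
    have e3 := h3 n (by omega)
    have g2 := hE2 n hn0 hne hnN hnE.1 0 n hn0 le_rfl (by simp)
    have hs := Pool.Agent.W93.GB.one_le_sing n
    have g4 : cnt n 0 n ≤ (repG n).card := by
      unfold cnt repG
      apply card_le_card
      intro p hp
      rw [mem_filter, mem_Ioc] at hp
      rw [mem_filter, mem_Icc]
      exact ⟨⟨hp.1.1, hp.1.2⟩, hp.2⟩
    have g4' : (cnt n 0 n : ℝ) ≤ ((repG n).card : ℝ) := by exact_mod_cast g4
    rw [Nat.cast_zero, sub_zero] at g2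
    set M : ℝ := Pool.Agent.H560R3.GB.sing n * n / Real.log n ^ 2 with hM
    have g5 : (n : ℝ) / Real.log n ^ 2 ≤ M := by
      rw [hM]
      apply div_le_div_of_nonneg_right _ (by positivity)
      exact le_mul_of_one_le_left hnr0.le hs
    have g6 : (n : ℝ) ^ (1 - 1 / 500 : ℝ) ≤ n / Real.log n ^ 2 / 2 := by
      rw [div_div, le_div_iff₀ (by positivity)]
      calc (n : ℝ) ^ (1 - 1 / 500 : ℝ) * (Real.log n ^ 2 * 2) = (n : ℝ) ^ (1 - 1 / 500 : ℝ) * (2 * Real.log n ^ 2) := by ring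
        _ ≤ (n : ℝ) ^ (1 - 1 / 500 : ℝ) * (n : ℝ) ^ (1 / 500 : ℝ) := mul_le_mul_of_nonneg_left e3 (by positivity)
        _ = n := by rw [← Real.rpow_add hnr0]; simp
    have g7 := (abs_le.1 g2).1
    linarith

end Pool.Agent.H806.MT
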